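import Pool.Agent.Helper68.TG.Defs
import Pool.Agent.Helper42.T3.GoalsL

/-!
# Project TG (MP_a41896_nt), part FLAT: goals
-/

set_option autoImplicit false

open MvPolynomial

namespace Pool.Agent.Helper68.TG

open WeierstrassCurve
open Pool.Agent.Helper29.BL Pool.Agent.Helper92.Ru Pool.Agent.Helper42.SG
open Pool.Agent.Helper68.VN (mapS)
open Pool.Agent.Helper42.TN (NotFlat)

noncomputable section

/-- **NRM**: the norm polynomial. No hypotheses.
PROOF. `F := ∏_ε ∑_i sg (ε i) X_(inl i) X_(inr i) ∈ ℤ[σ ⊕ σ]` (product over all `ε : σ → Bool`). For `i0 : σ` let `s` be the algebra map with `X_(inl i0) ↦ - X_(inl i0)` and `X_v ↦ X_v` for the other variables: `s F = F` (reindex the product by `ε ↦ update ε i0 (!ε i0)`), and `coeff m (s F) = (-1)^(m (inl i0)) coeff m F` (write `F` as the sum of its monomials). So `coeff m F ≠ 0` implies that all `m (inl i)` are even.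
`N := ∑_(m ∈ F.support) monomial m' (coeff m F)`, `m' (inl i) = m (inl i) / 2`, `m' (inr i) = m (inr i)`. Then `aeval (Sum.elim (Ψ²) u) N = aeval (Sum.elim Ψ u) F = ∏_ε ∑_i sg (ε i) (Ψ i u i)`. (Alternatively by induction on the variables: for every polynomial `f` in `T` over a commutative ring, `f(T) f(-T)` is a polynomial in `T²`.) -/
def NRM : Prop :=
  ∀ (σ : Type) [Fintype σ] [DecidableEq σ], ∃ N : MvPolynomial (σ ⊕ σ) ℤ, IsNorm N

/-- **PNL**: the polynomial `P(α; X)`. No hypotheses.
PROOF. (1) `MvPolynomial.map φ` is a ring homomorphism; both sides are `aeval` of the integral polynomial `N` (`map_aeval`, `pderiv_map`, `map_C`; e.g. `MvPolynomial.induction_on N` or `eval₂Hom` and the uniqueness of homomorphisms from `ℤ`). (2) the same with the ring homomorphism `eval₂Hom φ x`, then `IsNorm` with `Ψ` and `u i = φ (α i) * eval₂ φ x (pderiv i g)`; `sg` is the same in `A` and `B`.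
(3) `aeval v N` is a sum over `N.support` of products `∏_j v_j ^ (m_j)` (times integers); `degreeOf` of a sum is `≤` the maximum, of a product `≤` the sum (`degreeOf_mul_le`, `degreeOf_sum_le`, `degreeOf_pow_le`, `degreeOf_C_mul_le`); `degreeOf i (pderiv i' g) ≤ degreeOf i g` (or `≤ degreeOf i g + 1`: all is allowed). `D1` depends on `N, σ, D` only, e.g. `D1 = 2 N.totalDegree * (D + 1)`. -/
def PNL : Prop :=
  ∀ (σ : Type) [Fintype σ] [DecidableEq σ] (N : MvPolynomial (σ ⊕ σ) ℤ),
    (∀ (A B : Type) [CommRing A] [CommRing B] (φ : A →+* B) (b : σ → MvPolynomial σ A)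
      (g : MvPolynomial σ A) (α : σ → A),
      MvPolynomial.map φ (PN N b g α) =
        PN N (fun i => MvPolynomial.map φ (b i)) (MvPolynomial.map φ g) (fun i => φ (α i))) ∧
    (IsNorm N → ∀ (A B : Type) [CommRing A] [CommRing B] (φ : A →+* B)
      (b : σ → MvPolynomial σ A) (g : MvPolynomial σ A) (α : σ → A) (x Ψ : σ → B),
      (∀ i, Ψ i ^ 2 = eval₂ φ x (b i)) →
      eval₂ φ x (PN N b g α) =
        ∏ ε : σ → Bool, ∑ i, sg (ε i) * (Ψ i * (φ (α i) * eval₂ φ x (pderiv i g)))) ∧
    ∀ D : ℕ, ∃ D1 : ℕ, ∀ (A : Type) [CommRing A] (b : σ → MvPolynomial σ A)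
      (g : MvPolynomial σ A) (α : σ → A), (∀ i j, degreeOf j (b i) ≤ D) →
      (∀ j, degreeOf j g ≤ D) → ∀ j, degreeOf j (PN N b g α) ≤ D1

/-- **NSL**: Nullstellensatz. No hypotheses.
PROOF. `A := Algebra.adjoin K S` is a finitely generated `K`-algebra (`Subalgebra.fg_adjoin_of_finite`, `Algebra.FiniteType`), a domain. Let `M` be a maximal ideal of `A`; `A ⧸ M` is a field and a finitely generated `K`-algebra, so it is finite over `K` (Zariski's lemma, `finite_of_finite_type_of_isJacobsonRing`), hence algebraic, and `IsAlgClosed.lift : A ⧸ M →ₐ[K] κ`. -/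
def NSL : Prop :=
  ∀ (K L κ : Type) [Field K] [Field L] [Field κ] [Algebra K L] [Algebra K κ] [IsAlgClosed κ]
    (S : Set L), S.Finite → Nonempty (Algebra.adjoin K S →ₐ[K] κ)

/-- **SPA**: specialization of a flat factor. Hypotheses allowed: NSL, PNL.
PROOF. Make `L` and `κ` algebras over `K` by `l`, `j` (`RingHom.toAlgebra`). `S :=` the set of all `α i` and all coefficients of `p, q, r` (finite), `A := Algebra.adjoin K S`, `φ : A →ₐ[K] κ` (NSL), `ι : A → L` the inclusion. There are `α' : σ → A` and `p', q', r'` over `A` with images `α, p, q, r` (coefficients in `A`: e.g. `MvPolynomial.mem_range_map..`, or `∑_m monomial m ⟨coeff m p, _⟩`). `MvPolynomial.map ι` is injective, so the identities hold over `A`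
(`l = ι ∘ algebraMap K A`, `MvPolynomial.map_map`, PNL (1)). Apply `MvPolynomial.map φ`: identities over `κ` (`φ ∘ algebraMap K A = j`). `coeff m p = 1`, `α i0 = 1`: `ι` is injective. -/
def SPA : Prop :=
  ∀ (σ : Type) [Fintype σ] [DecidableEq σ] (N : MvPolynomial (σ ⊕ σ) ℤ) (K L κ : Type) [Field K]
    [Field L] [Field κ] [IsAlgClosed κ] (l : K →+* L) (j : K →+* κ) (b : σ → MvPolynomial σ K)
    (g : MvPolynomial σ K) (α : σ → L) (p q r : MvPolynomial σ L) (m : σ →₀ ℕ) (i0 : σ),
    MvPolynomial.map l g = p * q →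
    PN N (fun i => MvPolynomial.map l (b i)) (MvPolynomial.map l g) α = p * r →
    coeff m p = 1 → α i0 = 1 →
    ∃ (α' : σ → κ) (p' q' r' : MvPolynomial σ κ), MvPolynomial.map j g = p' * q' ∧
      PN N (fun i => MvPolynomial.map j (b i)) (MvPolynomial.map j g) α' = p' * r' ∧
      coeff m p' = 1 ∧ α' i0 = 1

/-- **SPB**: specialization of a flat direction. Hypotheses allowed: NSL, PNL.
PROOF. As SPA (with the data `α, r`). -/
def SPB : Prop :=
  ∀ (σ : Type) [Fintype σ] [DecidableEq σ] (N : MvPolynomial (σ ⊕ σ) ℤ) (K L κ : Type) [Field K]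
    [Field L] [Field κ] [IsAlgClosed κ] (l : K →+* L) (j : K →+* κ) (b : σ → MvPolynomial σ K)
    (g : MvPolynomial σ K) (α : σ → L) (r : MvPolynomial σ L) (i0 : σ),
    PN N (fun i => MvPolynomial.map l (b i)) (MvPolynomial.map l g) α =
      MvPolynomial.map l g * r → α i0 = 1 →
    ∃ (α' : σ → κ) (r' : MvPolynomial σ κ),
      PN N (fun i => MvPolynomial.map j (b i)) (MvPolynomial.map j g) α' =
        MvPolynomial.map j g * r' ∧ α' i0 = 1

/-- **GCF**: a common factor at a generic point. Hypothesis allowed: `Helper42.T3.ELIM` (landed).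
PROOF. `g ≠ 0`, `aeval X g = 0` (so `g` is not a unit): write `g` as a product of irreducible factors (`WfDvdMonoid`/`UniqueFactorizationMonoid.induction_on_prime` or `exists_factors`); `L` is a domain, so some irreducible factor `p0 ∣ g` has `aeval X p0 = 0`. If `¬ p0 ∣ f`: ELIM gives `u * p0 + v * f = s ≠ 0`, `degreeOf a s = 0`; `aeval X s = 0`, but `s = rename Subtype.val s'` with `s'` in the variables `i ≠ a` (`exists_rename_eq_of_vars_subset_range`),
`aeval (fun i => X i) s' = 0` contradicts the independence. So `p0 ∣ f`. `p0` is not constant (not `0`, not a unit, `κ` a field): there is `m ≠ 0` with `coeff m p0 ≠ 0`; `p := C (coeff m p0)⁻¹ * p0`. -/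
def GCF : Prop :=
  ∀ (κ L : Type) [Field κ] [Field L] [Algebra κ L] (σ : Type) [Fintype σ] [DecidableEq σ] (a : σ)
    (X : σ → L) (g f : MvPolynomial σ κ),
    AlgebraicIndependent κ (fun i : {i : σ // i ≠ a} => X i) → g ≠ 0 → aeval X g = 0 →
    aeval X f = 0 → ∃ (p q r : MvPolynomial σ κ) (m : σ →₀ ℕ), g = p * q ∧ f = p * r ∧ m ≠ 0 ∧
      coeff m p = 1

/-- **AIG**: an irreducible polynomial with a smooth zero in `K` is absolutely irreducible. No hypotheses.
PROOF. `G := MvPolynomial.map (algebraMap K (AlgebraicClosure K)) g ≠ 0`, `x' := algebraMap ∘ x`, `eval x' G = 0`. So an irreducible factor `p ∣ G` has `eval x' p = 0` (product of irreducible factors, the field is a domain). Choose `m0` with `coeff m0 p ≠ 0` and replace `p` by `C (coeff m0 p)⁻¹ * p`: `coeff m0 p = 1`. Let `τ` be an automorphism of `AlgebraicClosure K` over `K`, `pτ := MvPolynomial.map τ p`: irreducible (`MvPolynomial.mapEquiv`/`mapAlgEquiv`),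
`pτ ∣ map τ G = G`, `eval x' pτ = τ (eval x' p) = 0`, `coeff m0 pτ = 1`. If `pτ ≠ p`: `p` and `pτ` are not associated (units are constants; compare `coeff m0`), so `G = p * pτ * s` (`p` is prime and divides `G = pτ * s'`, `¬ p ∣ pτ`), and every partial derivative of `G` vanishes at `x'` (product rule), but `eval x' (pderiv a G) = algebraMap (eval x (pderiv a g)) ≠ 0`: contradiction. So `map τ p = p` for all `τ`; the same for `s` with `G = p * s` (`p` cancels).
The coefficients fixed by all `τ` are in `K` (`InfiniteGalois.mem_bot_iff_fixed`, `IntermediateField.mem_bot`; `AlgebraicClosure K` is Galois over `K` in characteristic `0`). So `p = map _ p0`, `s = map _ s0`, `g = p0 * s0` (`map_injective`). `g` is irreducible: `p0` or `s0` is a unit; `p0` a unit would make `p` a unit; so `s` is a unit and `G` is associated to the irreducible `p`. -/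
def AIG : Prop :=
  ∀ (K : Type) [Field K] [CharZero K] (σ : Type) [Fintype σ] [DecidableEq σ]
    (g : MvPolynomial σ K) (x : σ → K) (a : σ), Irreducible g → eval x g = 0 →
    eval x (pderiv a g) ≠ 0 →
    Irreducible (MvPolynomial.map (algebraMap K (AlgebraicClosure K)) g)

/-- **DRV**: a derivation with prescribed values on a hypersurface. Hypothesis allowed: `Helper92.UQ.DERF` (landed).
PROOF. The family `X_i`, `i ≠ a`, is algebraically independent over `κ`; extend its range to a transcendence basis of `L` over `κ` (`exists_isTranscendenceBasis_superset`-type lemma; the family is injective). DERF with `ι` = the basis as a subtype, values `v i` at `X i` and `0` at the other elements: `D : Derivation κ L L` with `D (X i) = v i` for `i ≠ a`. `0 = D (aeval X G) = ∑_i aeval X (pderiv i G) * D (X i)` (chain rule: `Derivation.mkDerivation..`, `MvPolynomial` induction on `G`; see also `Helper92/UQ`).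
With the hypothesis on `v`: `aeval X (pderiv a G) * D (X a) = - ∑_(i ≠ a) aeval X (pderiv i G) * v i = aeval X (pderiv a G) * v a`, so `D (X a) = v a`. -/
def DRV : Prop :=
  ∀ (κ L : Type) [Field κ] [CharZero κ] [Field L] [Algebra κ L] (σ : Type) [Fintype σ]
    [DecidableEq σ] (a : σ) (X v : σ → L) (G : MvPolynomial σ κ),
    AlgebraicIndependent κ (fun i : {i : σ // i ≠ a} => X i) → aeval X G = 0 →
    aeval X (pderiv a G) ≠ 0 → ∑ i, aeval X (pderiv i G) * v i = 0 →
    ∃ D : Derivation κ L L, ∀ i, D (X i) = v i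

/-- **LFT**: a family of polynomials of bounded degree is a polynomial over `ℕ → F`. No hypotheses.
PROOF. `P' := ∑_(m ∈ box) monomial m (fun k => coeff m (P k))`, box = the finite set of all `m : σ →₀ ℕ` with `m i ≤ D` for all `i` (`Finsupp` with values in `Finset.range (D + 1)`; `σ` is finite, e.g. the image of `Fintype.piFinset`); `coeff m (P k) = 0` outside of the box (`degreeOf_le_iff`/`monomial_le_degreeOf`). -/
def LFT : Prop :=
  ∀ (F : Type) [Field F] (σ : Type) [Fintype σ] [DecidableEq σ] (P : ℕ → MvPolynomial σ F)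
    (D : ℕ), (∀ k i, degreeOf i (P k) ≤ D) →
    ∃ P' : MvPolynomial σ (ℕ → F), ∀ k, MvPolynomial.map (Pi.evalRingHom (fun _ => F) k) P' = P k

/-- **FLK**: a flat direction over `Kbar`. Assembly (captain). Hypotheses: NRM, PNL, SPA, GCF, AIG. -/
def FLK : Prop :=
  ∀ (K : Type) [Field K] [CharZero K] (σ : Type) [Fintype σ] [DecidableEq σ] (W : σ → Affine K)
    (N : MvPolynomial (σ ⊕ σ) ℤ), IsNorm N → ∀ (g : MvPolynomial σ K) (x : σ → K) (a : σ),
    Irreducible g → eval x g = 0 → eval x (pderiv a g) ≠ 0 → ¬ NotFlat W g →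
    ∃ (α : σ → AlgebraicClosure K) (i0 : σ) (r : MvPolynomial σ (AlgebraicClosure K)),
      α i0 = 1 ∧
      PN N (fun i => MvPolynomial.map (algebraMap K (AlgebraicClosure K)) (BX W i))
        (MvPolynomial.map (algebraMap K (AlgebraicClosure K)) g) α =
        MvPolynomial.map (algebraMap K (AlgebraicClosure K)) g * r

/-- **S_FLAT** (part (1b)): a flat direction at the point `x*` (germs along the ultrafilter `U`) and the derivation.
`κ` is algebraically closed and contains the coefficients of the germ of `c_k g_k`; `K^ℕ/U → Ω` is `emb`. Assembly (captain). -/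
def S_FLAT : Prop :=
  ∀ (K : Type) [Field K] [CharZero K] (σ : Type) [Fintype σ] [DecidableEq σ] (W : σ → Affine K)
    (U : Ultrafilter ℕ) (g : ℕ → MvPolynomial σ K) (c : ℕ → K) (x ψ : ℕ → σ → K) (D0 : ℕ) (a : σ),
    (∀ᶠ k in (U : Filter ℕ), Irreducible (g k) ∧ (∀ i, degreeOf i (g k) ≤ D0) ∧ c k ≠ 0 ∧
      eval (x k) (g k) = 0 ∧ eval (x k) (pderiv a (g k)) ≠ 0 ∧
      (∀ i, ψ k i ^ 2 = Bf (W i) (x k i)) ∧ ¬ NotFlat W (g k)) →
    ∀ (κ Ω : Type) [Field κ] [IsAlgClosed κ] [Field Ω] [Algebra K κ] [Algebra K Ω] [Algebra κ Ω]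
      [IsScalarTower K κ Ω] (emb : Filter.Germ (U : Filter ℕ) K →+* Ω),
      (∀ z : K, emb (((fun _ : ℕ => z) : ℕ → K) : Filter.Germ (U : Filter ℕ) K) =
        algebraMap K Ω z) →
      (∀ m, emb (((fun k => c k * coeff m (g k)) : ℕ → K) : Filter.Germ (U : Filter ℕ) K) ∈
        (algebraMap κ Ω).range) →
      AlgebraicIndependent κ (fun i : {i : σ // i ≠ a} =>
        emb (((fun k => x k i) : ℕ → K) : Filter.Germ (U : Filter ℕ) K)) →
      ∃ α : σ → κ, α ≠ 0 ∧ ∃ D : Derivation κ Ω Ω, ∀ i,
        D (emb (((fun k => x k i) : ℕ → K) : Filter.Germ (U : Filter ℕ) K)) =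
          algebraMap κ Ω (α i) *
            emb (((fun k => ψ k i) : ℕ → K) : Filter.Germ (U : Filter ℕ) K)

end

end Pool.Agent.Helper68.TG
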