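import Pool.Agent.Helper42.T3.GoalsL
import Pool.Agent.Helper23.Vojta.Gauss

/-!
# The goal `Helper42.T3.ELIM` (Bezout)
-/

set_option autoImplicit false

open MvPolynomial

namespace Pool.Agent.Helper68.TG.ElimT

theorem t_ELIM : Pool.Agent.Helper42.T3.ELIM := by
  classical
  intro K _ σ _ _ i h g hirr hdvd
  let S := MvPolynomial { j // j ≠ i } K
  let E : MvPolynomial σ K ≃ₐ[K] Polynomial S :=
    (renameEquiv K (Equiv.optionSubtypeNe i).symm).trans (optionEquivLeft K _)
  have he : E.symm.toAlgHom.comp Polynomial.CAlgHom = rename (↑) := by ext; simp [E, S]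
  have hrel0 : IsRelPrime h g := (Irreducible.isRelPrime_iff_not_dvd hirr).mpr hdvd
  have hrel : IsRelPrime (E h) (E g) := by
    apply IsRelPrime.of_map E.symm
    simpa using hrel0
  have hE0 : E h ≠ 0 := by simpa using hirr.ne_zero
  obtain ⟨a, b, r, hr, hab⟩ := Pool.Agent.Helper23.Vojta.bezout_const hE0 hrel
  have h1 : E.symm (Polynomial.C r) = rename (fun x : { j // j ≠ i } => (x : σ)) r := by
    have := congrArg (fun φ => φ r) he
    simpa using this
  have h2 : E.symm a * h + E.symm b * g = rename (fun x : { j // j ≠ i } => (x : σ)) r := by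
    rw [← h1, ← hab]
    simp
  refine ⟨E.symm a, E.symm b, rename (fun x : { j // j ≠ i } => (x : σ)) r, ?_, ?_, h2⟩
  · intro h3
    exact hr ((rename_eq_zero_iff_of_injective _ Subtype.val_injective).1 h3)
  · by_contra hne
    have hv : i ∈ (rename (fun x : { j // j ≠ i } => (x : σ)) r).vars :=
      (mem_vars_iff_degreeOf_ne_zero).mpr hne
    have := vars_rename _ _ hv
    rw [Finset.mem_image] at this
    obtain ⟨j, _, hj⟩ := this
    exact j.2 hj

end Pool.Agent.Helper68.TG.ElimT
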