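import Pool.Agent.Helper68.TG.Goals

set_option autoImplicit false

open MvPolynomial

namespace Pool.Agent.Helper68.TG.LFTp

open Pool.Agent.Helper68.TG

theorem t_LFT : LFT := by
  classical
  intro F _ σ _ _ P D hP
  set box : Finset (σ →₀ ℕ) :=
    (Fintype.piFinset fun _ : σ => Finset.range (D + 1)).image
      (fun f => Finsupp.equivFunOnFinite.symm f) with hbox
  have hmem : ∀ k m, coeff m (P k) ≠ 0 → m ∈ box := by
    intro k m hm
    rw [hbox, Finset.mem_image]
    refine ⟨m, ?_, by ext i; simp⟩
    rw [Fintype.mem_piFinset]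
    intro i
    rw [Finset.mem_range, Nat.lt_succ_iff]
    exact (monomial_le_degreeOf i (mem_support_iff.mpr hm)).trans (hP k i)
  refine ⟨∑ m ∈ box, monomial m (fun k => coeff m (P k)), fun k => ?_⟩
  ext m
  rw [coeff_map, coeff_sum]
  simp only [coeff_monomial]
  rw [Finset.sum_ite_eq' box m]
  split_ifs with h
  · rfl
  · rw [map_zero]
    by_contra hc
    exact h (hmem k m (Ne.symm hc))

end Pool.Agent.Helper68.TG.LFTp
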