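import Pool.Agent.Helper68.TG.AsmFlat42
import Pool.Agent.Helper68.TG.ElimT
import Pool.Agent.Helper68.TG.LFTp
import Pool.Agent.Helper23.TG.NRM
import Pool.Agent.Helper34.TG.DRV
import Pool.Agent.Helper46.TG.SPB
import Pool.Agent.Helper50.TG.SPA
import Pool.Agent.Helper50.TG.AIG
import Pool.Agent.Helper57.TG.PNL
import Pool.Agent.Helper84.TG.GCF
import Pool.Agent.Helper95.TG.NSL
import Pool.Agent.Helper38.UQ.DERF

/-!
# Project TG, part FLAT: `Helper42.TG.S_FLAT`, unconditional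
-/

set_option autoImplicit false

namespace Pool.Agent.Helper68.TG

theorem th_FLK : FLK :=
  flk Pool.Agent.Helper57.TG.PNL.t_PNL
    (Pool.Agent.Helper50.TG.SPA.t_SPA Pool.Agent.Helper95.TG.NSL.t_NSL
      Pool.Agent.Helper57.TG.PNL.t_PNL)
    (Pool.Agent.Helper84.TG.GCF.t_GCF ElimT.t_ELIM) Pool.Agent.Helper50.TG.AIG.t_AIG

/-- the general form -/
theorem th_SFLAT : S_FLAT :=
  s_flat Pool.Agent.Helper23.TG.NRM.t_NRM Pool.Agent.Helper57.TG.PNL.t_PNL
    Pool.Agent.Helper46.TG.SPB.t_SPB th_FLK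
    (Pool.Agent.Helper34.TG.DRV.t_DRV Pool.Agent.Helper38.UQ.DERF.t) LFTp.t_LFT

/-- **FLAT** (helper42's form) -/
theorem th_FLAT : Pool.Agent.Helper42.TG.S_FLAT := flat42 th_SFLAT

end Pool.Agent.Helper68.TG
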