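import Pool.Agent.Helper3.TG.GoalsTr

/-!
# Project TG (MP_a41896_nt), TRANSFER under an endomorphism: `z_b ↦ φ(z_b)`

`x(φ(P)) = A(x(P)) / B(x(P))` with coprime polynomials `A, B`, `deg B < deg A`.  The centre `f` in the variables `x_i` is replaced by a
centre `f'` in the variables `x_i` (`i ≠ b`), `y = A(x_b) / B(x_b)`.  Result: MTRF (with `cH`), MGENP (genericity).  Models: the landed
proofs of `Helper3/TG/GoalsTr.lean`.  All goals are independent; the allowed hypotheses are named.
-/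

set_option autoImplicit false

open MvPolynomial

namespace Pool.Agent.Helper68.TG.M

open WeierstrassCurve Height
open Pool.Agent.Helper29.BL Pool.Agent.Helper92.Ru Pool.Agent.Helper42.SG
open Pool.Agent.Helper5.UN (hv CodimGT cH)
open Pool.Agent.Helper60.HC (S_ELOC2 S_CHB)
open Pool.Agent.Helper92.ZH (RESE)
open Pool.Agent.Helper3.TG (HVM LPRJ RENC)

noncomputable section

/-- `A`, `B` are coprime and `deg B < deg A` -/
structure PairM {K : Type} [Field K] (A B : Polynomial K) : Prop where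
  cop : IsCoprime A B
  deg : B.natDegree < A.natDegree

/-- the form of degree `n` of the polynomial `A` -/
def ph {K Ω : Type} [Field K] [Field Ω] [Algebra K Ω] (n : ℕ) (A : Polynomial K)
    (p : Fin 2 → Ω) : Ω :=
  ∑ i ∈ Finset.range (n + 1), algebraMap K Ω (A.coeff i) * (p 0 ^ i * p 1 ^ (n - i))

/-- the polynomial `B(X_b) X_c - A(X_b)` -/
def MP {K : Type} [Field K] {σ : Type} (A B : Polynomial K) (b c : σ) : MvPolynomial σ K :=
  Polynomial.aeval (X b : MvPolynomial σ K) B * X c - Polynomial.aeval (X b : MvPolynomial σ K) A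

/-- **MHN** (non-degeneracy, also at infinity). No hypotheses. Model: `Pool/Agent/Helper83/TG/THN.lean`.
PROOF. `n := A.natDegree ≥ 1`. If `r = (1, 0)`: `r_0 = 1`. If `r_1 = 1`: `B^h(p) r_0 = A^h(p)`, and `A^h(p), B^h(p)` are in the field of the elements algebraic over `F` (`algebraicClosure F Ω` is a subfield which contains `p_0`, `p_1 ∈ {0, 1}` and the image of `K`). If `B^h(p) ≠ 0` then `r_0 = A^h(p) / B^h(p)` is algebraic. If `B^h(p) = 0` then `A^h(p) = 0`:
for `p_1 = 1` this says `A(p_0) = B(p_0) = 0` (`ph n A p = aeval (p 0) A` as `natDegree A ≤ n`), impossible because `u A + v B = 1`; for `p = (1, 0)`: `A^h(p) = coeff n A` = the leading coefficient `≠ 0`. -/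
def MHN : Prop :=
  ∀ (K : Type) [Field K] (A B : Polynomial K), PairM A B → ∀ (Ω : Type) [Field Ω]
    [Algebra K Ω] (F : IntermediateField K Ω) (p r : Fin 2 → Ω), (p 1 = 1 ∨ p = ![1, 0]) →
    (r 1 = 1 ∨ r = ![1, 0]) → ph A.natDegree B p * r 0 - ph A.natDegree A p * r 1 = 0 →
    IsAlgebraic F (p 0) → IsAlgebraic F (r 0)

/-- **MGENT** (genericity). No hypotheses. Model: `Pool/Agent/Helper37/TG/GENT.lean`.
PROOF. `y` is transcendental over `k := K(x_i : i ≠ b)` (in the sense: the family `x_i` (`i ≠ b`), `y` is independent): otherwise `y` is algebraic over `k`, and `x_b` is a root of the polynomial `A(T) - y B(T)` with coefficients algebraic over `k`, which is not zero (its coefficient at `T^n`, `n = deg A > deg B`, is that of `A`): `x_b` is algebraic over `k`, contradiction. -/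
def MGENT : Prop :=
  ∀ (K : Type) [Field K] (A B : Polynomial K), PairM A B → ∀ (σ : Type) [Fintype σ]
    [DecidableEq σ] (Ω : Type) [Field Ω] [Algebra K Ω] (x : σ → Ω) (y : Ω) (b : σ),
    AlgebraicIndependent K x → Polynomial.aeval (x b) B * y = Polynomial.aeval (x b) A →
    AlgebraicIndependent K (Function.update x b y)

/-- **MGENP** (genericity, polynomials). Hypotheses allowed: MGENT, RESE (`Helper92.ZH.RESE`, landed). Model: `Pool/Agent/Helper20/TG/GENP.lean`.
PROOF. `V := Option σ`, `g := MP A B (some b) none` (degree `≤ deg A` in `some b`, degree `1` in `none`: `B ≠ 0`; degree `0` in the other variables), `Q := rename (fun i => if i = b then none else some i) Z'` (injective). RESE with `h0 = none`: `R = α g + β Q`, `R.degreeOf none = 0`, so `R = rename some Z`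
(`exists_rename_eq_of_vars_subset_range`). If the relation holds and `Z'(update x b y) = 0` then `g = Q = 0` at the point `o ↦ o.elim y x`, so `Z(x) = 0`. `Z ≠ 0`: take `Ω` algebraically closed and `x : σ → Ω` algebraically independent (`Pool.Agent.Helper44.ZH.NRH.exists_generic`); the last part of RESE at the point `o ↦ o.elim 0 x`: a polynomial `p ≠ 0` with degree `0` in `none`
is `rename some p'`, so its value is `p'(x) ≠ 0`; for a root `t` of `g` we have `B(x_b) t = A(x_b)`, so by MGENT `update x b t` is independent and `Z'(update x b t) ≠ 0`. -/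
def MGENP : Prop :=
  ∀ (K : Type) [Field K] [NumberField K] (A B : Polynomial K), PairM A B →
    ∀ (σ : Type) [Fintype σ] [DecidableEq σ] (b : σ) (Z' : MvPolynomial σ K), Z' ≠ 0 →
    ∃ Z : MvPolynomial σ K, Z ≠ 0 ∧ ∀ (x : σ → K) (y : K),
      Polynomial.eval (x b) B * y = Polynomial.eval (x b) A →
      eval (Function.update x b y) Z' = 0 → eval x Z = 0

/-- **MHVT** (the form of `MP`). No hypotheses. Model: `Pool/Agent/Helper87/TG/HVT.lean`, `Helper99/TG/HVM.lean`.
PROOF. `MP A B b c = ∑_(i ≤ n) (coeff i B) X_b^i X_c - ∑_(i ≤ n) (coeff i A) X_b^i`, `n = A.natDegree`; `hv` is additive (`G_HVB`, or `hv` as a sum over any finite set containing the support) and has the value `φ c ∏_i y_i0^(m i) y_i1^(E i - m i)` on `monomial m c`: with the exponents `n` at `b`, `1` at `c`, `0` elsewhere the monomials give `y_b0^i y_b1^(n-i) y_c0`, resp. `y_b0^i y_b1^(n-i) y_c1`. -/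
def MHVT : Prop :=
  ∀ (K : Type) [Field K] (A B : Polynomial K), PairM A B → ∀ (σ : Type) [Fintype σ]
    [DecidableEq σ] (b c : σ), b ≠ c →
    (∀ i, degreeOf i (MP A B b c) ≤ if i = b then A.natDegree else if i = c then 1 else 0) ∧
    ∀ (Ω : Type) [Field Ω] [Algebra K Ω] (y : σ → Fin 2 → Ω),
      hv (algebraMap K Ω) (fun i => if i = b then A.natDegree else if i = c then 1 else 0)
        (MP A B b c) y =
        ph A.natDegree B (y b) * y c 0 - ph A.natDegree A (y b) * y c 1

/-- **MENL** (the enlarged system). Hypotheses allowed: `Helper3.TG.HVM` (landed), MHVT, MHN. Model: `Pool/Agent/Helper57/TG/ENL.lean`.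
PROOF. `n := A.natDegree ≥ 1`, `D' := D + n`. `ι' := (ι × (Option σ → Bool)) ⊕ (Option σ → Bool)`; `f' (inl (j, β)) := rename some (f j) * ∏_i X_(some i)^(if β (some i) then n else 0) * X_none^(if β none then D + n else 0)`; `f' (inr β) := MP A B (some b) none * ∏_o X_o^(if β o then e_o else 0)` with `e_o = D` for `o = some b`, `D + n - 1` for `o = none`, `D + n` otherwise. Degrees `≤ D + n`.
FORMS (HVM, MHVT; `hv` of `X_o^k` with exponent `E` at `o` is `y_o0^k y_o1^(E-k)`): `hv (D+n) (f' (inl (j, β))) y = hv D (f j) (y ∘ some) * ∏_i (y_i0 or y_i1)^n * (Y_0 or Y_1)^(D+n)`, `hv (D+n) (f' (inr β)) y = (form of MP)(y) * ∏ (..)`. CODIMENSION: let `y` be a common zero, `β o := (y_o0 ≠ 0)`; if `β o` is false then `y_o 1 = 1`; so the monomials are not `0`,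
and `hv D (f j) (y ∘ some) = 0` for all `j`, and the form of `MP` is `0`. CodimGT for `f` gives `T`, `|T| + 1 < |σ|`, all `y (some i) 0` algebraic over `K(T)`, and by MHN `y none 0`, too: `|T| + 2 < |σ| + 1`.
LOCAL: `eval (..) (f' (inr β)) = 0` because of the relation; `v (eval (f' (inl (j, β)))) ≤ v (eval x (f j)) * (∏ Mv v (x i))^n * Mv v y^(D+n)` (`Mv v t = max 1 (v t)`); so the supremum over `ι'` (finite, not empty) is `≤ (⨆ v (f_j(x))) (∏ Mv)^n (Mv v y)^(D+n)` (also if `ι` is empty); multiply by `(∏ Mv)^D`. -/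
def MENL : Prop :=
  ∀ (K : Type) [Field K] [NumberField K] (A B : Polynomial K), PairM A B →
    ∀ (σ : Type) [Fintype σ] [DecidableEq σ] (D : ℕ) (ι : Type) [Fintype ι]
      (f : ι → MvPolynomial σ K), (∀ j i, degreeOf i (f j) ≤ D) → CodimGT D f 1 → ∀ b : σ,
    ∃ (D' : ℕ) (ι' : Type) (_ : Fintype ι') (f' : ι' → MvPolynomial (Option σ) K),
      (∀ j i, degreeOf i (f' j) ≤ D') ∧ CodimGT D' f' 2 ∧
      ∀ (v : AbsoluteValue K ℝ) (x : σ → K) (y : K),
        Polynomial.eval (x b) B * y = Polynomial.eval (x b) A →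
        (⨆ j, v (eval (fun o : Option σ => o.elim y x) (f' j))) * (∏ i, Mv v (x i)) ^ D ≤
          (∏ i, Mv v (x i)) ^ D' * Mv v y ^ D' * ⨆ j, v (eval x (f j))

/-- **MLTRF** (transfer, local form). Hypotheses allowed: MENL, `Helper3.TG.LPRJ`, `Helper3.TG.RENC` (landed). Model: `Pool/Agent/Helper79/TG/LTRF.lean`.
PROOF. MENL gives `D', f'` on `Option σ`, `s = 2`; LPRJ with `I := univ.erase (some b)`, `|I| + 2 = |σ| + 2 = |Option σ| + 1`, `1 ≤ |I|` (`|σ| ≥ 1`): `E, f''` on `{o // o ∈ I}`; `e : {o // o ∈ I} ≃ σ`, `some i ↦ i` (`i ≠ b`), `none ↦ b`; `f''' := rename e (f'' j)`. For `x⁺ := fun o => o.elim y x` and `x' := update x b y`: `x' (e o) = x⁺ o.1` for `o ∈ I`, so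
`eval x' (f''' j) = eval (fun o => x⁺ o.1) (f'' j)` and `∏_(o ∈ I) Mv (x⁺ o) = ∏_i Mv (x' i)`. `∏_(Option σ) Mv (x⁺ o) = (∏ Mv (x i)) * Mv y`. Combine the two inequalities, `A := ∏ Mv (x i) ≥ 1`, `Y := Mv y ≥ 1`: `F''' (A Y)^(D') ≤ B A'^E F'` and `F' A^D ≤ A^(D') Y^(D') F`, so `F''' (A Y)^(D') A^D ≤ B A'^E (A Y)^(D') F`; cancel. -/
def MLTRF : Prop :=
  ∀ (K : Type) [Field K] [NumberField K] (A B : Polynomial K), PairM A B →
    ∀ (σ : Type) [Fintype σ] [DecidableEq σ] (D : ℕ) (ι : Type) [Fintype ι]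
      (f : ι → MvPolynomial σ K), (∀ j i, degreeOf i (f j) ≤ D) → CodimGT D f 1 → ∀ b : σ,
    ∃ (E : ℕ) (J : Type) (_ : Fintype J) (f' : J → MvPolynomial σ K)
      (B' : AbsoluteValue K ℝ → ℝ), (∀ j i, degreeOf i (f' j) ≤ E) ∧ CodimGT E f' 1 ∧ PlC B' ∧
      ∀ (v : AbsoluteValue K ℝ) (x : σ → K) (y : K),
        Polynomial.eval (x b) B * y = Polynomial.eval (x b) A →
        (⨆ j, v (eval (Function.update x b y) (f' j))) * (∏ i, Mv v (x i)) ^ D ≤
          B' v * (∏ i, Mv v (Function.update x b y i)) ^ E * ⨆ j, v (eval x (f j))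

/-- **MTRF** (transfer). Hypotheses allowed: MLTRF, S_CHB (landed). Model: `Pool/Agent/Helper67/TG/TRF.lean`.
PROOF. As `Helper3.TG.TRF` with the relation `B(x_b) y = A(x_b)` (it is used only through MLTRF). -/
def MTRF : Prop :=
  ∀ (K : Type) [Field K] [NumberField K] (A B : Polynomial K), PairM A B →
    ∀ (σ : Type) [Fintype σ] [DecidableEq σ] (D : ℕ) (ι : Type) [Fintype ι]
      (f : ι → MvPolynomial σ K), (∀ j i, degreeOf i (f j) ≤ D) → CodimGT D f 1 → ∀ b : σ,
    ∃ (E : ℕ) (J : Type) (_ : Fintype J) (f' : J → MvPolynomial σ K) (c : ℝ),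
      (∀ j i, degreeOf i (f' j) ≤ E) ∧ CodimGT E f' 1 ∧ 0 ≤ c ∧
      ∀ (x : σ → K) (y : K), Polynomial.eval (x b) B * y = Polynomial.eval (x b) A →
        (∃ j, eval (Function.update x b y) (f' j) ≠ 0) → (∃ j, eval x (f j) ≠ 0) ∧
        cH D f x ≤ cH E f' (Function.update x b y) + c

end

end Pool.Agent.Helper68.TG.M
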