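import Pool.Agent.Helper68.TG.GoalsM
import Pool.Agent.Helper37.TG.GENT

/-!
# Project TG, CM version: the goal MGENT
-/

set_option autoImplicit false

open MvPolynomial

namespace Pool.Agent.Helper68.TG.M

theorem alg_step {F Ω : Type} [Field F] [Field Ω] [Algebra F Ω] (A B : Polynomial F)
    (hdeg : B.natDegree < A.natDegree) (x y : Ω) (hy : IsAlgebraic F y)
    (h : Polynomial.aeval x B * y = Polynomial.aeval x A) : IsAlgebraic F x := by
  have hyG : y ∈ algebraicClosure F Ω := mem_algebraicClosure_iff.2 hy
  set G := algebraicClosure F Ω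
  set P : Polynomial G := A.map (algebraMap F G) - Polynomial.C (⟨y, hyG⟩ : G) *
    B.map (algebraMap F G) with hP
  have hP0 : P ≠ 0 := by
    intro h0
    have hc := congrArg (fun p => Polynomial.coeff p A.natDegree) h0
    simp only [hP, Polynomial.coeff_sub, Polynomial.coeff_C_mul, Polynomial.coeff_map,
      Polynomial.coeff_zero] at hc
    rw [Polynomial.coeff_eq_zero_of_natDegree_lt hdeg, map_zero, mul_zero, sub_zero,
      map_eq_zero_iff _ (algebraMap F G).injective] at hc
    have hA : A = 0 := Polynomial.leadingCoeff_eq_zero.1 hc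
    rw [hA] at hdeg
    simp at hdeg
  have hx : IsAlgebraic G x := by
    refine ⟨P, hP0, ?_⟩
    rw [hP, map_sub, map_mul, Polynomial.aeval_map_algebraMap, Polynomial.aeval_map_algebraMap,
      Polynomial.aeval_C, ← h]
    show Polynomial.aeval x B * y - y * Polynomial.aeval x B = 0
    ring
  exact (IsAlgebraic.restrictScalars F hx)

theorem t_MGENT : MGENT := by
  intro K _ A B hAB σ _ _ Ω _ _ x y b hx hrel
  have h1 := (Pool.Agent.Helper37.TG.GENT.split_iff x b).1 hx
  rw [Pool.Agent.Helper37.TG.GENT.split_iff _ b]
  have himg : (Function.update x b y) '' ({b}ᶜ : Set σ) = x '' ({b}ᶜ : Set σ) :=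
    Set.image_congr fun i hi => Function.update_of_ne hi _ _
  have hon : AlgebraicIndepOn K (Function.update x b y) ({b}ᶜ : Set σ) := by
    have e : (fun i : ({b}ᶜ : Set σ) => Function.update x b y i) =
        fun i : ({b}ᶜ : Set σ) => x i := by
      funext i
      exact Function.update_of_ne i.2 _ _
    have h2 := h1.1
    unfold AlgebraicIndepOn at h2 ⊢
    rw [e]
    exact h2
  refine ⟨hon, ?_⟩
  rw [himg, Function.update_self, ← IntermediateField.transcendental_adjoin_iff]
  have h2 := h1.2
  rw [← IntermediateField.transcendental_adjoin_iff] at h2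
  intro hy
  apply h2
  set F := IntermediateField.adjoin K (x '' ({b}ᶜ : Set σ))
  refine alg_step (A.map (algebraMap K F)) (B.map (algebraMap K F)) ?_ (x b) y hy ?_
  · rw [Polynomial.natDegree_map, Polynomial.natDegree_map]
    exact hAB.deg
  · rw [Polynomial.aeval_map_algebraMap, Polynomial.aeval_map_algebraMap]
    exact hrel

end Pool.Agent.Helper68.TG.M
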