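import Pool.Agent.Helper68.TG.GoalsM
import Pool.Agent.Helper68.TG.MGENTp
import Pool.Agent.Helper60.HC.Main3
import Pool.Agent.Helper92.ZH.Main
import Pool.Agent.Helper99.TG.HVM
import Pool.Agent.Helper2.TG.LPRJ
import Pool.Agent.Helper98.TG.RENC
import Pool.Agent.Helper33.TG.MHN
import Pool.Agent.Helper24.TG.MGENP
import Pool.Agent.Helper69.TG.MHVT
import Pool.Agent.Helper14.TG.MENL
import Pool.Agent.Helper23.TG.MLTRF
import Pool.Agent.Helper43.TG.MTRF

/-!
# Project TG, CM version: transfer under an endomorphism, unconditional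
-/

set_option autoImplicit false

namespace Pool.Agent.Helper68.TG.M

theorem th_MHN : MHN := Pool.Agent.Helper33.TG.MHN.t_MHN

theorem th_MHVT : MHVT := Pool.Agent.Helper69.TG.MHVT.t_MHVT

theorem th_MENL : MENL :=
  Pool.Agent.Helper14.TG.MENL.t_MENL Pool.Agent.Helper99.TG.HVM.t th_MHVT th_MHN

theorem th_MGENP : MGENP :=
  Pool.Agent.Helper24.TG.MGENP.t_MGENP t_MGENT Pool.Agent.Helper92.ZH.Main.th_RESE

theorem th_MLTRF : MLTRF :=
  Pool.Agent.Helper23.TG.MLTRF.t_MLTRF th_MENL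
    (Pool.Agent.Helper2.TG.LPRJ.t Pool.Agent.Helper60.HC.th_ELOC2) Pool.Agent.Helper98.TG.RENC.t

theorem th_MTRF : MTRF :=
  Pool.Agent.Helper43.TG.MTRF.t_MTRF th_MLTRF Pool.Agent.Helper60.HC.th_CHB

end Pool.Agent.Helper68.TG.M
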