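import Pool.Agent.Helper68.TG.Goals

/-!
# Project TG, part FLAT: assembly of FLK
-/

set_option autoImplicit false

open MvPolynomial

namespace Pool.Agent.Helper68.TG

open WeierstrassCurve
open Pool.Agent.Helper29.BL Pool.Agent.Helper92.Ru Pool.Agent.Helper42.SG
open Pool.Agent.Helper68.VN (mapS)
open Pool.Agent.Helper42.TN (NotFlat)

noncomputable section

theorem sg_false {A : Type} [CommRing A] : (sg false : A) = 1 := by simp [sg]

theorem sg_mul_self {A : Type} [CommRing A] (b : Bool) : (sg b : A) * sg b = 1 := by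
  cases b <;> simp [sg]

theorem map_sg {A B : Type} [CommRing A] [CommRing B] (φ : A →+* B) (b : Bool) :
    φ (sg b) = sg b := by
  cases b <;> simp [sg]

theorem eval₂_BX {K B : Type} [Field K] [CommRing B] {σ : Type} (W : σ → Affine K) (φ : K →+* B)
    (x : σ → B) (i : σ) : eval₂ φ x (BX W i) = Bf ((W i).map φ) (x i) := by
  simp only [BX, Bf, eval₂_add, eval₂_mul, eval₂_pow, eval₂_X, eval₂_C, WeierstrassCurve.map_b₂,
    WeierstrassCurve.map_b₄, WeierstrassCurve.map_b₆]
  have h4 : eval₂ φ x (4 : MvPolynomial σ K) = 4 := by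
    have : (4 : MvPolynomial σ K) = C 4 := (map_ofNat C 4).symm
    rw [this, eval₂_C, map_ofNat]
  have h2 : eval₂ φ x (2 : MvPolynomial σ K) = 2 := by
    have : (2 : MvPolynomial σ K) = C 2 := (map_ofNat C 2).symm
    rw [this, eval₂_C, map_ofNat]
  rw [h4, h2]

theorem flk (hPNL : PNL) (hSPA : SPA) (hGCF : GCF) (hAIG : AIG) : FLK := by
  classical
  intro K _ _ σ _ _ W N hN g x a hirr hx hder hnf
  unfold NotFlat at hnf
  push Not at hnf
  obtain ⟨a', κ, _, _, _, L, _, _, _, _, X, Ψ, hΨ, hX, hind, α, hα, hα0⟩ := hnf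
  obtain ⟨i0, hi0⟩ : ∃ i0, α i0 ≠ 0 := by
    by_contra h
    push Not at h
    exact hα0 (funext h)
  set α1 : σ → κ := fun i => (α i0)⁻¹ * α i with hα1
  have hα1i : α1 i0 = 1 := by simp [hα1, inv_mul_cancel₀ hi0]
  set bκ : σ → MvPolynomial σ κ := fun i => MvPolynomial.map (algebraMap K κ) (BX W i) with hbκ
  set gκ : MvPolynomial σ κ := MvPolynomial.map (algebraMap K κ) g with hgκ
  have hev : ∀ q : MvPolynomial σ K,
      eval₂ (algebraMap κ L) X (MvPolynomial.map (algebraMap K κ) q) = aeval X q := by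
    intro q
    rw [eval₂_map, aeval_def, ← IsScalarTower.algebraMap_eq]
  have hg0 : gκ ≠ 0 := by
    rw [hgκ, Ne, map_eq_zero_iff _ (map_injective _ (algebraMap K κ).injective)]
    exact hirr.ne_zero
  have hgX : aeval X gκ = 0 := by
    rw [aeval_def, hgκ, hev, hX]
  obtain ⟨h1, h2, h3⟩ := hPNL σ N
  have hΨb : ∀ i, Ψ i ^ 2 = eval₂ (algebraMap κ L) X (bκ i) := by
    intro i
    rw [hbκ, hev, aeval_def, eval₂_BX]
    exact hΨ i
  have hPX : aeval X (PN N bκ gκ α1) = 0 := by
    rw [aeval_def, h2 hN κ L (algebraMap κ L) bκ gκ α1 X Ψ hΨb]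
    apply Finset.prod_eq_zero (Finset.mem_univ (fun _ => false))
    have : ∑ i, sg false * (Ψ i * (algebraMap κ L (α1 i) * eval₂ (algebraMap κ L) X
        (pderiv i gκ))) = algebraMap κ L (α i0)⁻¹ *
        ∑ i, algebraMap κ L (α i) * (Ψ i * aeval X (pderiv i g)) := by
      rw [Finset.mul_sum]
      refine Finset.sum_congr rfl fun i _ => ?_
      rw [sg_false, hgκ, pderiv_map, hev, hα1]
      simp only [map_mul]
      ring
    rw [this, hα, mul_zero]
  obtain ⟨p, q, r, m, hgpq, hfpr, hm0, hmp⟩ :=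
    hGCF κ L σ a' X gκ (PN N bκ gκ α1) hind hg0 hgX hPX
  obtain ⟨α', p', q', r', hg', hf', hm', hα'⟩ :=
    hSPA σ N K κ (AlgebraicClosure K) (algebraMap K κ) (algebraMap K (AlgebraicClosure K))
      (fun i => BX W i) g α1 p q r m i0 hgpq hfpr hmp hα1i
  have hI := hAIG K σ g x a hirr hx hder
  rcases hI.isUnit_or_isUnit hg' with hu | hu
  · exfalso
    obtain ⟨c, hc, hcp⟩ := MvPolynomial.isUnit_iff_eq_C_of_isReduced.mp hu
    rw [hcp, coeff_C, if_neg (Ne.symm hm0)] at hm'
    exact zero_ne_one hm'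
  · obtain ⟨s, hs⟩ := hu.exists_right_inv
    refine ⟨α', i0, s * r', hα', ?_⟩
    rw [hf', hg']
    calc p' * r' = p' * (q' * s) * r' := by rw [hs, mul_one]
      _ = p' * q' * (s * r') := by ring

end

end Pool.Agent.Helper68.TG
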