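import Pool.Agent.Helper68.TG.AsmFLK

/-!
# Project TG, part FLAT: assembly of S_FLAT
-/

set_option autoImplicit false

open MvPolynomial

namespace Pool.Agent.Helper68.TG

open WeierstrassCurve
open Pool.Agent.Helper29.BL Pool.Agent.Helper92.Ru Pool.Agent.Helper42.SG
open Pool.Agent.Helper68.VN (mapS)
open Pool.Agent.Helper42.TN (NotFlat)

noncomputable section

/-- the ring homomorphism: sequences to germs -/
abbrev gr (F : Type) [CommRing F] (U : Ultrafilter ℕ) : (ℕ → F) →+* Filter.Germ (U : Filter ℕ) F :=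
  Filter.Germ.coeRingHom (U : Filter ℕ)

theorem gr_eq {F : Type} [CommRing F] (U : Ultrafilter ℕ) (f h : ℕ → F) :
    gr F U f = gr F U h ↔ ∀ᶠ k in (U : Filter ℕ), f k = h k := by
  show ((f : Filter.Germ (U : Filter ℕ) F) = (h : Filter.Germ (U : Filter ℕ) F)) ↔ _
  exact Filter.Germ.coe_eq

/-- identity of polynomials over germs -/
theorem map_gr_eq {F : Type} [CommRing F] {σ : Type} (U : Ultrafilter ℕ)
    (P Q : MvPolynomial σ (ℕ → F))
    (h : ∀ᶠ k in (U : Filter ℕ), MvPolynomial.map (Pi.evalRingHom (fun _ => F) k) P =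
      MvPolynomial.map (Pi.evalRingHom (fun _ => F) k) Q) :
    MvPolynomial.map (gr F U) P = MvPolynomial.map (gr F U) Q := by
  ext m
  rw [coeff_map, coeff_map, gr_eq]
  filter_upwards [h] with k hk
  have := congrArg (coeff m) hk
  rwa [coeff_map, coeff_map] at this

/-- the map of germs induced by a ring homomorphism -/
def grMap {F E : Type} [CommRing F] [CommRing E] (U : Ultrafilter ℕ) (φ : F →+* E) :
    Filter.Germ (U : Filter ℕ) F →+* Filter.Germ (U : Filter ℕ) E where
  toFun := Filter.Germ.map φ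
  map_one' := by
    show Filter.Germ.map φ ((1 : ℕ → F) : Filter.Germ (U : Filter ℕ) F) = _
    rw [Filter.Germ.map_coe]
    congr 1
    funext k
    simp
  map_mul' a b := by
    induction a using Filter.Germ.inductionOn with | _ f => ?_
    induction b using Filter.Germ.inductionOn with | _ h => ?_
    rw [← Filter.Germ.coe_mul, Filter.Germ.map_coe, Filter.Germ.map_coe, Filter.Germ.map_coe,
      ← Filter.Germ.coe_mul]
    congr 1
    funext k
    simp
  map_zero' := by
    show Filter.Germ.map φ ((0 : ℕ → F) : Filter.Germ (U : Filter ℕ) F) = _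
    rw [Filter.Germ.map_coe]
    congr 1
    funext k
    simp
  map_add' a b := by
    induction a using Filter.Germ.inductionOn with | _ f => ?_
    induction b using Filter.Germ.inductionOn with | _ h => ?_
    rw [← Filter.Germ.coe_add, Filter.Germ.map_coe, Filter.Germ.map_coe, Filter.Germ.map_coe,
      ← Filter.Germ.coe_add]
    congr 1
    funext k
    simp

theorem grMap_gr {F E : Type} [CommRing F] [CommRing E] (U : Ultrafilter ℕ) (φ : F →+* E)
    (f : ℕ → F) : grMap U φ (gr F U f) = gr E U (fun k => φ (f k)) := rfl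

theorem exists_map_eq {R S : Type} [CommRing R] [CommRing S] {σ : Type} (f : R →+* S)
    (P : MvPolynomial σ S) (h : ∀ m, coeff m P ∈ Set.range f) :
    ∃ Q : MvPolynomial σ R, MvPolynomial.map f Q = P := by
  classical
  have : P ∈ Set.range (MvPolynomial.map f) := by
    rw [mem_range_map_iff_coeffs_subset]
    intro z hz
    rw [Finset.mem_coe, mem_coeffs_iff] at hz
    obtain ⟨m, _, rfl⟩ := hz
    exact h m
  exact this

/-- evaluation of a polynomial over germs at a germ -/
theorem eval₂_gr {F : Type} [CommRing F] {σ : Type} (U : Ultrafilter ℕ)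
    (P : MvPolynomial σ (ℕ → F)) (x : ℕ → σ → F) :
    eval₂ (gr F U) (fun i => gr F U (fun k => x k i)) P =
      gr F U (fun k => eval (x k) (MvPolynomial.map (Pi.evalRingHom (fun _ => F) k) P)) := by
  have h := eval₂_comp_left (gr F U) (RingHom.id _) (fun i k => x k i) P
  rw [RingHom.comp_id] at h
  have h' : ((gr F U) ∘ fun i k => x k i) = fun i => gr F U (fun k => x k i) := rfl
  rw [h'] at h
  rw [← h]
  congr 1
  funext k
  have h2 := eval₂_comp_left (Pi.evalRingHom (fun _ => F) k) (RingHom.id _) (fun i k => x k i) P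
  rw [RingHom.comp_id] at h2
  have h3 : ((Pi.evalRingHom (fun _ => F) k) ∘ fun i k => x k i) = x k := rfl
  rw [h3] at h2
  rw [eval_map, ← h2]
  rfl

theorem notFlat_scale {K : Type} [Field K] {σ : Type} [Fintype σ] (W : σ → Affine K)
    (g : MvPolynomial σ K) (c : K) (hc : c ≠ 0) (h : NotFlat W (C c * g)) : NotFlat W g := by
  intro a κ _ _ _ L _ _ _ _ X Ψ hΨ hX hind α hα
  refine h a κ L X Ψ hΨ ?_ hind α ?_
  · rw [map_mul, hX, mul_zero]
  · have : ∀ i, algebraMap κ L (α i) * (Ψ i * aeval X (pderiv i (C c * g))) =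
        algebraMap K L c * (algebraMap κ L (α i) * (Ψ i * aeval X (pderiv i g))) := by
      intro i
      rw [pderiv_C_mul, map_mul, aeval_C]
      ring
    simp_rw [this]
    rw [← Finset.mul_sum, hα, mul_zero]

theorem deg_map_le {A B : Type} [CommRing A] [CommRing B] (φ : A →+* B) {σ : Type} (j : σ)
    (p : MvPolynomial σ A) : degreeOf j (MvPolynomial.map φ p) ≤ degreeOf j p := by
  classical
  rw [degreeOf_le_iff]
  intro m hm
  exact monomial_le_degreeOf j (support_map_subset φ p hm)

theorem deg_X_le {A : Type} [CommRing A] {σ : Type} (i j : σ) :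
    degreeOf j (X i : MvPolynomial σ A) ≤ 1 := by
  classical
  rcases subsingleton_or_nontrivial A with h | h
  · rw [Subsingleton.elim (X i : MvPolynomial σ A) 0, degreeOf_zero]
    omega
  · rw [degreeOf_X]
    split_ifs <;> omega

theorem deg_BX {K : Type} [Field K] {σ : Type} (W : σ → Affine K) (i j : σ) :
    degreeOf j (BX W i) ≤ 3 := by
  classical
  have h4 : (4 : MvPolynomial σ K) = C 4 := (map_ofNat C 4).symm
  have h2 : (2 : MvPolynomial σ K) = C 2 := (map_ofNat C 2).symm
  have hX := deg_X_le (A := K) i j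
  have e1 : degreeOf j (C 4 * X i ^ 3 : MvPolynomial σ K) ≤ 3 :=
    (degreeOf_C_mul_le _ _ _).trans ((degreeOf_pow_le _ _ _).trans (by omega))
  have e2 : degreeOf j (C (W i).b₂ * X i ^ 2 : MvPolynomial σ K) ≤ 3 :=
    (degreeOf_C_mul_le _ _ _).trans ((degreeOf_pow_le _ _ _).trans (by omega))
  have e3 : degreeOf j (C 2 * C (W i).b₄ * X i : MvPolynomial σ K) ≤ 3 := by
    rw [← C_mul]
    exact (degreeOf_C_mul_le _ _ _).trans (by omega)
  have e4 : degreeOf j (C (W i).b₆ : MvPolynomial σ K) ≤ 3 := by rw [degreeOf_C]; omega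
  rw [BX, h4, h2]
  refine (degreeOf_add_le _ _ _).trans (max_le ?_ e4)
  refine (degreeOf_add_le _ _ _).trans (max_le ?_ e3)
  exact (degreeOf_add_le _ _ _).trans (max_le e1 e2)

theorem s_flat (hNRM : NRM) (hPNL : PNL) (hSPB : SPB) (hFLK : FLK) (hDRV : DRV) (hLFT : LFT) :
    S_FLAT := by
  classical
  intro K _ _ σ _ _ W U g c x ψ D0 a hev κ Ω _ _ _ _ _ _ _ emb hcst hcoef hind
  haveI : CharZero κ := charZero_of_injective_algebraMap (algebraMap K κ).injective
  obtain ⟨N, hN⟩ := hNRM σ
  obtain ⟨h1, h2, h3⟩ := hPNL σ N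
  set F := AlgebraicClosure K with hF
  set φ : K →+* F := algebraMap K F with hφ
  obtain ⟨D1, hD1⟩ := h3 (D0 + 3)
  have hb3 : ∀ i j, degreeOf j (MvPolynomial.map φ (BX W i)) ≤ D0 + 3 := by
    intro i j
    exact (deg_map_le φ _ _).trans ((deg_BX W i j).trans (by omega))
  -- the data for every k
  have key : ∀ k, ∃ (α : σ → F) (i0 : σ) (r : MvPolynomial σ F) (G : MvPolynomial σ K),
      (∀ i, degreeOf i r ≤ D1) ∧ (∀ i, degreeOf i G ≤ D0) ∧
      ((Irreducible (g k) ∧ (∀ i, degreeOf i (g k) ≤ D0) ∧ c k ≠ 0 ∧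
      eval (x k) (g k) = 0 ∧ eval (x k) (pderiv a (g k)) ≠ 0 ∧
      (∀ i, ψ k i ^ 2 = Bf (W i) (x k i)) ∧ ¬ NotFlat W (g k)) →
      G = C (c k) * g k ∧ α i0 = 1 ∧
      PN N (fun i => MvPolynomial.map φ (BX W i)) (MvPolynomial.map φ G) α =
        MvPolynomial.map φ G * r) := by
    intro k
    by_cases hk : (Irreducible (g k) ∧ (∀ i, degreeOf i (g k) ≤ D0) ∧ c k ≠ 0 ∧
      eval (x k) (g k) = 0 ∧ eval (x k) (pderiv a (g k)) ≠ 0 ∧
      (∀ i, ψ k i ^ 2 = Bf (W i) (x k i)) ∧ ¬ NotFlat W (g k))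
    · obtain ⟨hirr, hdeg, hc, hx, hd, hψ, hnf⟩ := hk
      have hirr' : Irreducible (C (c k) * g k) := by
        have hu : IsUnit (C (c k) : MvPolynomial σ K) := (IsUnit.mk0 _ hc).map C
        exact (irreducible_isUnit_mul hu).mpr hirr
      obtain ⟨α, i0, r, hα, hr⟩ := hFLK K σ W N hN (C (c k) * g k) (x k) a hirr'
        (by rw [map_mul, hx, mul_zero])
        (by rw [pderiv_C_mul, map_mul, eval_C]; exact mul_ne_zero hc hd)
        (fun h => hnf (notFlat_scale W (g k) (c k) hc h))
      have hGd : ∀ i, degreeOf i (C (c k) * g k) ≤ D0 := fun i =>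
        (degreeOf_C_mul_le _ _ _).trans (hdeg i)
      refine ⟨α, i0, r, C (c k) * g k, ?_, hGd, fun _ => ⟨rfl, hα, hr⟩⟩
      intro i
      by_cases hr0 : r = 0
      · rw [hr0]; simp
      · have hG0 : MvPolynomial.map φ (C (c k) * g k) ≠ 0 := by
          rw [Ne, map_eq_zero_iff _ (map_injective _ φ.injective)]
          exact hirr'.ne_zero
        have : degreeOf i r ≤ degreeOf i (MvPolynomial.map φ (C (c k) * g k) * r) := by
          rw [degreeOf_mul_eq hG0 hr0]
          exact Nat.le_add_left _ _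
        refine this.trans ?_
        rw [← hr]
        refine hD1 F _ _ α hb3 (fun j => ?_) i
        exact (deg_map_le φ _ _).trans ((hGd j).trans (by omega))
    · exact ⟨0, a, 0, 0, by simp, by simp, fun h => absurd h hk⟩
  choose α i0 r G hrD hGD hdat using key
  -- the coordinate
  obtain ⟨j0, hj0⟩ : ∃ j0, ∀ᶠ k in (U : Filter ℕ), i0 k = j0 := by
    obtain ⟨j0, hj0⟩ := Ultrafilter.eq_pure_of_finite (U.map i0)
    refine ⟨j0, ?_⟩
    have : {j0} ∈ U.map i0 := by rw [hj0]; exact Set.mem_singleton j0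
    exact this
  -- lifts
  obtain ⟨G', hG'⟩ := hLFT K σ G D0 hGD
  obtain ⟨r', hr'⟩ := hLFT F σ r D1 hrD
  have hgood := hev.mono fun k hk => hdat k hk
  set Gs : MvPolynomial σ (Filter.Germ (U : Filter ℕ) K) := MvPolynomial.map (gr K U) G' with hGs
  set k0 : Subfield (Filter.Germ (U : Filter ℕ) K) :=
    (algebraMap κ Ω).fieldRange.comap emb with hk0
  have hmem0 : ∀ z, z ∈ k0 ↔ emb z ∈ (algebraMap κ Ω).range := fun z => by
    rw [hk0, Subfield.mem_comap]; rfl
  have hGsc : ∀ m, coeff m Gs ∈ k0 := by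
    intro m
    rw [hmem0, hGs, coeff_map]
    have e : gr K U (coeff m G') = gr K U (fun k => c k * coeff m (g k)) := by
      rw [gr_eq]
      filter_upwards [hgood] with k hk
      have := congrArg (coeff m) (hG' k)
      rw [coeff_map, hk.1, coeff_C_mul] at this
      exact this
    rw [e]
    exact hcoef m
  obtain ⟨G0, hG0⟩ := exists_map_eq k0.subtype Gs (fun m => ⟨⟨_, hGsc m⟩, rfl⟩)
  -- constants
  let cK : K →+* (ℕ → K) := Pi.constRingHom ℕ K
  let jK : K →+* k0 := ((gr K U).comp cK).codRestrict k0 (fun z => by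
    rw [hmem0]
    refine ⟨algebraMap K κ z, ?_⟩
    rw [← IsScalarTower.algebraMap_apply]
    exact (hcst z).symm)
  have hjex : ∀ z : k0, ∃ w : κ, algebraMap κ Ω w = emb z := fun z => (hmem0 _).mp z.2
  choose jf hjf using hjex
  have hinj := (algebraMap κ Ω).injective
  let j : k0 →+* κ :=
    { toFun := jf
      map_one' := hinj (by rw [hjf, map_one]; simp)
      map_mul' := fun u v => hinj (by rw [hjf, map_mul, hjf, hjf]; simp)
      map_zero' := hinj (by rw [hjf, map_zero]; simp)
      map_add' := fun u v => hinj (by rw [hjf, map_add, hjf, hjf]; simp) }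
  have hj : ∀ z : k0, algebraMap κ Ω (j z) = emb z := hjf
  set L := Filter.Germ (U : Filter ℕ) F with hL
  let l : k0 →+* L := (grMap U φ).comp k0.subtype
  let Φ : (ℕ → K) →+* (ℕ → F) := φ.compLeft ℕ
  have hΦ : (grMap U φ).comp (gr K U) = (gr F U).comp Φ := rfl
  set b0 : σ → MvPolynomial σ k0 := fun i => MvPolynomial.map jK (BX W i) with hb0
  set bh : σ → MvPolynomial σ (ℕ → F) := fun i => MvPolynomial.map (Φ.comp cK) (BX W i) with hbh
  have hlG : MvPolynomial.map l G0 = MvPolynomial.map (gr F U) (MvPolynomial.map Φ G') := by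
    rw [← MvPolynomial.map_map, hG0, hGs, MvPolynomial.map_map, MvPolynomial.map_map]
    rfl
  have hlb : ∀ i, MvPolynomial.map l (b0 i) = MvPolynomial.map (gr F U) (bh i) := by
    intro i
    rw [hb0, hbh]
    simp only [MvPolynomial.map_map]
    rfl
  let αh : σ → (ℕ → F) := fun i k => α k i
  have hevG : ∀ k, MvPolynomial.map (Pi.evalRingHom (fun _ => F) k) (MvPolynomial.map Φ G') =
      MvPolynomial.map φ (G k) := by
    intro k
    rw [← hG' k, MvPolynomial.map_map, MvPolynomial.map_map]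
    rfl
  have hevb : ∀ k i, MvPolynomial.map (Pi.evalRingHom (fun _ => F) k) (bh i) =
      MvPolynomial.map φ (BX W i) := by
    intro k i
    rw [hbh]
    simp only [MvPolynomial.map_map]
    rfl
  have hid : PN N (fun i => MvPolynomial.map l (b0 i)) (MvPolynomial.map l G0)
      (fun i => gr F U (αh i)) = MvPolynomial.map l G0 * MvPolynomial.map (gr F U) r' := by
    simp_rw [hlb]
    rw [hlG, ← map_mul, ← h1]
    apply map_gr_eq
    filter_upwards [hgood] with k hk
    rw [h1, map_mul, hr', hevG]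
    simp_rw [hevb]
    exact hk.2.2
  have hα1 : gr F U (αh j0) = 1 := by
    rw [← map_one (gr F U), gr_eq]
    filter_upwards [hgood, hj0] with k hk hk'
    rw [← hk']
    exact hk.2.1
  obtain ⟨α', q', hq', hα'⟩ := hSPB σ N k0 L κ l j b0 G0 _ _ j0 hid hα1
  -- evaluation
  set xs : σ → Ω := fun i => emb (gr K U (fun k => x k i)) with hxs
  set ψs : σ → Ω := fun i => emb (gr K U (fun k => ψ k i)) with hψs
  have hcomp : (algebraMap κ Ω).comp j = emb.comp k0.subtype := by
    ext z
    exact hj z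
  have hev1 : ∀ P : MvPolynomial σ k0, ∀ P' : MvPolynomial σ (ℕ → K),
      MvPolynomial.map k0.subtype P = MvPolynomial.map (gr K U) P' →
      eval₂ (algebraMap κ Ω) xs (MvPolynomial.map j P) = emb (gr K U (fun k => eval (x k)
        (MvPolynomial.map (Pi.evalRingHom (fun _ => K) k) P'))) := by
    intro P P' hP
    rw [eval₂_map, hcomp, ← eval₂_gr, ← eval₂_map, hP, eval₂_map]
    exact (eval₂_comp_left emb (gr K U) _ P').symm
  have hGx : eval₂ (algebraMap κ Ω) xs (MvPolynomial.map j G0) = 0 := by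
    rw [hev1 G0 G' hG0]
    have : gr K U (fun k => eval (x k) (MvPolynomial.map (Pi.evalRingHom (fun _ => K) k) G')) =
        0 := by
      rw [← map_zero (gr K U), gr_eq]
      filter_upwards [hev, hgood] with k hk hk'
      rw [hG', hk'.1, map_mul, hk.2.2.2.1, mul_zero]
      rfl
    rw [this, map_zero]
  have hGa : eval₂ (algebraMap κ Ω) xs (pderiv a (MvPolynomial.map j G0)) ≠ 0 := by
    rw [pderiv_map, hev1 (pderiv a G0) (pderiv a G') (by rw [← pderiv_map, hG0, ← pderiv_map])]
    rw [Ne, map_eq_zero_iff _ emb.injective, ← map_zero (gr K U), gr_eq]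
    intro hcon
    obtain ⟨k, hk, hk', hk2⟩ := (hcon.and (hev.and hgood)).exists
    rw [← pderiv_map, hG', hk2.1, pderiv_C_mul, map_mul, eval_C] at hk
    exact mul_ne_zero hk'.2.2.1 hk'.2.2.2.2.1 hk
  have hψb : ∀ i, ψs i ^ 2 = eval₂ (algebraMap κ Ω) xs (MvPolynomial.map j (b0 i)) := by
    intro i
    rw [hev1 (b0 i) (MvPolynomial.map cK (BX W i)) (by
      rw [hb0]; simp only [MvPolynomial.map_map]; rfl), hψs]
    simp only
    rw [← map_pow, ← map_pow]
    congr 1
    rw [gr_eq]
    filter_upwards [hev] with k hk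
    rw [Pi.pow_apply, hk.2.2.2.2.2.1 i, MvPolynomial.map_map, eval_map, eval₂_BX]
    congr 1
  have hprod := h2 hN κ Ω (algebraMap κ Ω) _ (MvPolynomial.map j G0) α' xs ψs hψb
  rw [hq', eval₂_mul, hGx, zero_mul] at hprod
  obtain ⟨ε, _, hε⟩ := Finset.prod_eq_zero_iff.mp hprod.symm
  refine ⟨fun i => sg (ε i) * α' i, ?_, ?_⟩
  · intro h
    have h0 := congrFun h j0
    simp only [Pi.zero_apply] at h0
    rw [hα', mul_one] at h0
    have := sg_mul_self (A := κ) (ε j0)
    rw [h0, mul_zero] at this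
    exact zero_ne_one this
  · refine hDRV κ Ω σ a xs (fun i => algebraMap κ Ω (sg (ε i) * α' i) * ψs i)
      (MvPolynomial.map j G0) hind hGx hGa ?_
    rw [← hε]
    refine Finset.sum_congr rfl fun i _ => ?_
    rw [map_mul, map_sg, aeval_def]
    ring

end

end Pool.Agent.Helper68.TG
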