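import Pool.Agent.Helper68.TG.AsmFlat
import Pool.Agent.Helper42.TG.Defs
import Pool.Agent.Helper24.SGB.ELAW
import Pool.Agent.Helper8.T3.MC

/-!
# Project TG, part FLAT: helper42's statement `Helper42.TG.S_FLAT`
-/

set_option autoImplicit false

open MvPolynomial

namespace Pool.Agent.Helper68.TG

open WeierstrassCurve Height
open Pool.Agent.Helper29.BL Pool.Agent.Helper92.Ru Pool.Agent.Helper42.SG
open Pool.Agent.Helper60.HC (Lo nrs xs)
open Pool.Agent.Helper42.TN (NotFlat)
open Pool.Agent.Helper42.TG (GK gm slow KL gl)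

noncomputable section

theorem slow_const {K : Type} [Field K] [NumberField K] (U : Ultrafilter ℕ) (T : ℕ → ℝ)
    (hT : ∀ R : ℝ, ∀ᶠ k in (U : Filter ℕ), R ≤ T k) (a : K) :
    slow U T (gm U fun _ => a) := by
  refine ⟨fun _ => a, rfl, fun η hη => ?_⟩
  filter_upwards [hT (logHeight₁ a / η)] with k hk
  rw [div_le_iff₀ hη] at hk
  linarith [mul_comm (T k) η]

theorem flat42 (hF : S_FLAT) : Pool.Agent.Helper42.TG.S_FLAT := by
  classical
  intro K _ _ _ U T hT κ L _ _ _ _ _ _ _ hcκ hcL hKL τ _ _ W hW w g D0 a hev hht hind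
  haveI := hcκ
  obtain ⟨hMC, -, -, hMC4⟩ := Pool.Agent.Helper8.T3.MC.t K τ
  -- the normalising factor
  have hc : ∀ k, ∃ c : K, g k ≠ 0 → c ≠ 0 ∧ ∃ m, coeff m (C c * g k) = 1 := by
    intro k
    by_cases h : g k = 0
    · exact ⟨0, fun h' => absurd h h'⟩
    · obtain ⟨m, hm⟩ := ne_zero_iff.mp h
      refine ⟨(coeff m (g k))⁻¹, fun _ => ⟨inv_ne_zero hm, m, ?_⟩⟩
      rw [coeff_C_mul, inv_mul_cancel₀ hm]
  choose c hc using hc
  have hrange : ∀ f : ℕ → K, slow U T (gm U f) → slow U T (gm U (fun k => - f k)) →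
      algebraMap (GK K U) L (gm U f) ∈ (algebraMap κ L).range := by
    intro f hf hf'
    have : algebraMap (GK K U) L (gm U f) ∈ Set.range (algebraMap κ L) := by
      rw [hKL.rg]
      refine ⟨Polynomial.X + Polynomial.C (gm U fun k => - f k), ?_, ?_, ?_⟩
      · exact Polynomial.X_add_C_ne_zero _
      · intro i
        rcases i with _ | _ | i
        · simpa using hf'
        · have h1 : (Polynomial.X + Polynomial.C (gm U fun k => - f k) :
              Polynomial (GK K U)).coeff (0 + 1) = gm U fun _ => (1 : K) := by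
            rw [Polynomial.coeff_add, zero_add, Polynomial.coeff_X_one,
              Polynomial.coeff_C_of_ne_zero one_ne_zero, add_zero]
            rfl
          rw [h1]
          exact slow_const U T hT (1 : K)
        · have : (Polynomial.X + Polynomial.C (gm U fun k => - f k) :
              Polynomial (GK K U)).coeff (i + 1 + 1) = gm U fun _ => (0 : K) := by
            rw [Polynomial.coeff_add, Polynomial.coeff_X_of_ne_one (by omega),
              Polynomial.coeff_C_of_ne_zero (by omega), add_zero]
            rfl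
          rw [this]
          exact slow_const U T hT (0 : K)
      · rw [map_add, Polynomial.aeval_X, Polynomial.aeval_C, ← map_add]
        have : gm U f + gm U (fun k => - f k) = 0 := by
          have e : gm U f + gm U (fun k => - f k) = gm U (fun k => f k + - f k) := rfl
          rw [e]
          have e2 : (fun k => f k + - f k) = fun _ => (0 : K) := by
            funext k
            ring
          rw [e2]
          rfl
        rw [this, map_zero]
    exact this
  have hslow : ∀ m, ∀ η : ℝ, 0 < η → ∀ᶠ k in (U : Filter ℕ),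
      logHeight₁ (c k * coeff m (g k)) ≤ η * T k := by
    intro m η hη
    filter_upwards [hev, hht η hη] with k hk hk'
    have h0 := hk.2.1.ne_zero
    obtain ⟨hc0, hm1⟩ := hc k h0
    have := (hMC (C (c k) * g k) hm1).2.2 m
    rw [coeff_C_mul, hMC4 (c k) (g k) hc0] at this
    exact this.trans hk'
  obtain ⟨α, hα, D, hD⟩ := hF K τ W U g c (fun k => xs (w k)) (fun k j => ps (w k j)) D0 a
    (by
      filter_upwards [hev] with k hk
      obtain ⟨hk1, hk2, hk3, hk4, hk5, hk6, hk7⟩ := hk
      refine ⟨hk2, hk3, (hc k hk2.ne_zero).1, hk5, hk6, fun j => ?_, hk7⟩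
      exact Pool.Agent.Helper24.SGB.ps_sq (w k j) (hk1 j).1)
    κ L (algebraMap (GK K U) L) (fun z => (hKL.cst z).symm)
    (fun m => hrange (fun k => c k * coeff m (g k)) ⟨_, rfl, hslow m⟩
      ⟨_, rfl, fun η hη => (hslow m η hη).mono fun k hk => by rwa [logHeight₁_neg]⟩)
    hind
  exact ⟨D, α, hα, hD⟩

end

end Pool.Agent.Helper68.TG
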