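import Pool.Agent.Helper42.TN.DefsF

/-!
# Project TG (MP_a41896_nt), part FLAT: definitions

`U` ultrafilter on `ℕ`, `g_k` irreducible polynomials over `K` of bounded degree, `x_k` a `K`-point of `g_k = 0` where a partial derivative is not
zero, `¬ NotFlat W (g_k)` for almost all `k`.  Then at the point `x*` (germs) there is a constant flat direction `α ∈ κ^σ`, `α ≠ 0`, and a
derivation `D` over `κ` with `D x*_i = α_i ψ*_i`, as soon as `κ` is algebraically closed and contains the coefficients of the germ `g*`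
(multiplied by a factor).
PROOF. `P(α; X) := ∏_ε ∑_i ε_i α_i Ψ_i ∂_i g(X)` (all signs `ε`) is a polynomial in `X`, `α` (`Ψ_i² = B_i(X_i)`). `g_k` is absolutely irreducible
(it has a smooth `K`-point), so the flat direction at the generic point gives `α_k` over `Kbar`, one coordinate `1`, and
`P(α_k; X) = g_k Q_k`.  Pass to germs and specialize the germ of `(α_k, Q_k)` to `κ` by the Nullstellensatz: `P(α; X) = g* Q` with `α, Q` over
`κ`.  Put `X = x*`: one of the factors of `P(α; x*)` is zero.
-/

set_option autoImplicit false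

open MvPolynomial

namespace Pool.Agent.Helper68.TG

open WeierstrassCurve
open Pool.Agent.Helper29.BL Pool.Agent.Helper92.Ru Pool.Agent.Helper42.SG
open Pool.Agent.Helper68.VN (mapS)
open Pool.Agent.Helper42.TN (NotFlat)

noncomputable section

/-- the sign of a Boolean -/
def sg {A : Type} [CommRing A] (b : Bool) : A := if b then -1 else 1

/-- `N` is the norm polynomial: `N(Ψ², u) = ∏_ε ∑_i ε_i Ψ_i u_i` -/
def IsNorm {σ : Type} [Fintype σ] [DecidableEq σ] (N : MvPolynomial (σ ⊕ σ) ℤ) : Prop :=
  ∀ (A : Type) [CommRing A] (Ψ u : σ → A),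
    aeval (Sum.elim (fun i => Ψ i ^ 2) u) N = ∏ ε : σ → Bool, ∑ i, sg (ε i) * (Ψ i * u i)

/-- `P(α; X)` for the polynomials `b i` (`Ψ_i² = b_i(X)`) and `g` -/
def PN {σ : Type} (N : MvPolynomial (σ ⊕ σ) ℤ) {A : Type} [CommRing A]
    (b : σ → MvPolynomial σ A) (g : MvPolynomial σ A) (α : σ → A) : MvPolynomial σ A :=
  aeval (Sum.elim b (fun i => C (α i) * pderiv i g)) N

/-- the polynomial `B_i(X_i)` -/
def BX {K : Type} [Field K] {σ : Type} (W : σ → Affine K) (i : σ) : MvPolynomial σ K :=
  4 * X i ^ 3 + C (W i).b₂ * X i ^ 2 + 2 * C (W i).b₄ * X i + C (W i).b₆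

end

end Pool.Agent.Helper68.TG
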